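import Mathlib

/-!
# Meromorphically extendable CR maps into spheres need not extend holomorphically

We give a generic, minimal, real analytic submanifold `M ⊂ ℂ³` of real codimension `2` through `0`
and a continuous CR map `f : M → ∂𝔹₄` which is the restriction to `M` of a rational map, but which
has no holomorphic extension to any neighbourhood of `0`.

With coordinates `(z, w, v)` on `ℂ³`,

* `M = {Im w = |z|², Im v = |w|² + |z|⁴}`;
* `y = w² / v` (bounded by `1` on `M`), `h = w² y - i w² + 2 v + w`,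
  `g = (w (y + i), z² (y - 2 i), z)`; one has `Im h = |g|²` on `M`;
* `f = ((i - h) / (i + h), 2 g / (i + h))`.
-/

open scoped ContDiff Topology ComplexConjugate
open MeasureTheory Set Complex

namespace Pool.Agent.Results.MP_c4ba3a_an.CodimTwoCounterexample

/-! ### Definitions used in the statement -/

/-- `M` is a (locally closed, embedded) real submanifold of `ℂⁿ` of real codimension `d` and of
class `C^s` (`s = ∞`: smooth, `s = ω`: real analytic): near each of its points it is the zero set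
of a `C^s` map to `ℝ^d` with surjective real derivative. Its dimension is `2 n - d`. -/
def IsRealSubmanifold (s : WithTop ℕ∞) {n : ℕ} (d : ℕ) (M : Set (Fin n → ℂ)) : Prop :=
  ∀ q ∈ M, ∃ U : Set (Fin n → ℂ), IsOpen U ∧ q ∈ U ∧
    ∃ r : (Fin n → ℂ) → (Fin d → ℝ), ContDiffOn ℝ s r U ∧
      (∀ x ∈ U, Function.Surjective (fderiv ℝ r x)) ∧
      M ∩ U = {x | x ∈ U ∧ r x = 0}

/-- The tangent space `T_q M`: the velocities at `q` of curves contained in `M`. -/
def tangentVectors {n : ℕ} (M : Set (Fin n → ℂ)) (q : Fin n → ℂ) : Set (Fin n → ℂ) :=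
  {v | ∃ γ : ℝ → (Fin n → ℂ), γ 0 = q ∧ HasDerivAt γ v 0 ∧ ∀ᶠ t in 𝓝 (0 : ℝ), γ t ∈ M}

/-- `M` is generic: `T_q M + J T_q M = ℂⁿ` for all `q ∈ M`. -/
def IsGeneric {n : ℕ} (M : Set (Fin n → ℂ)) : Prop :=
  ∀ q ∈ M, ∀ v : Fin n → ℂ, ∃ a ∈ tangentVectors M q, ∃ b ∈ tangentVectors M q,
    v = a + Complex.I • b

/-- The complex tangent space `T_q M ∩ J T_q M`. -/
def complexTangentVectors {n : ℕ} (M : Set (Fin n → ℂ)) (q : Fin n → ℂ) : Set (Fin n → ℂ) :=
  {v | v ∈ tangentVectors M q ∧ ∃ w ∈ tangentVectors M q, v = Complex.I • w}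

/-- `M` (of real codimension `d`) is minimal at `p` in the sense of Tumanov: no smooth real
submanifold `S ⊂ M` through `p` of smaller dimension (larger codimension `c`) satisfies
`T_q M ∩ J T_q M ⊂ T_q S` for all `q ∈ S`. -/
def IsMinimalAt {n : ℕ} (d : ℕ) (M : Set (Fin n → ℂ)) (p : Fin n → ℂ) : Prop :=
  ¬ ∃ (c : ℕ) (S : Set (Fin n → ℂ)), d < c ∧ IsRealSubmanifold ∞ c S ∧ S ⊆ M ∧ p ∈ S ∧
    ∀ q ∈ S, complexTangentVectors M q ⊆ tangentVectors S q

/-- `ψ : O → M` (with `O ⊂ ℝ^m` open) is a smooth local parametrization of `M` when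
`m = dim M`. -/
def IsLocalParam {n m : ℕ} (M : Set (Fin n → ℂ)) (O : Set (EuclideanSpace ℝ (Fin m)))
    (ψ : EuclideanSpace ℝ (Fin m) → (Fin n → ℂ)) : Prop :=
  IsOpen O ∧ ContDiffOn ℝ ∞ ψ O ∧ InjOn ψ O ∧
    (∀ x ∈ O, Function.Injective (fderiv ℝ ψ x)) ∧ MapsTo ψ O M

/-- A function `f` on `M` (real codimension `d`) is a continuous CR function: it is continuous and
annihilated in the sense of distributions by all smooth sections of `T^{0,1} M`.
In a local parametrization `ψ : O → M` by an open subset of `ℝ^m`, `m = dim M = 2 n - d`, a smooth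
complex vector field `X = ∑ Xᵢ ∂ᵢ` is a section of `T^{0,1} M` iff it annihilates the (restrictions
of the) holomorphic coordinates, i.e. iff `∑ Xᵢ ∂ᵢ ψ = 0` in `ℂⁿ`; and `X (f ∘ ψ) = 0` in the sense
of distributions means `∫_O (f ∘ ψ) ∑ ∂ᵢ (Xᵢ χ) = 0` for all test functions `χ` on `O`. -/
def IsCRFunction {n : ℕ} (d : ℕ) (M : Set (Fin n → ℂ)) (f : (Fin n → ℂ) → ℂ) : Prop :=
  ContinuousOn f M ∧ ∀ m : ℕ, m + d = 2 * n →
    ∀ (O : Set (EuclideanSpace ℝ (Fin m))) (ψ : EuclideanSpace ℝ (Fin m) → (Fin n → ℂ)),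
    IsLocalParam M O ψ →
    ∀ X : Fin m → EuclideanSpace ℝ (Fin m) → ℂ, (∀ i, ContDiffOn ℝ ∞ (X i) O) →
      (∀ x ∈ O, ∑ i, X i x • fderiv ℝ ψ x (EuclideanSpace.single i 1) = 0) →
    ∀ χ : EuclideanSpace ℝ (Fin m) → ℂ, ContDiff ℝ ∞ χ → HasCompactSupport χ →
      tsupport χ ⊆ O →
      ∫ x in O, f (ψ x) *
        ∑ i, fderiv ℝ (fun y => X i y * χ y) x (EuclideanSpace.single i 1) = 0

/-- A map is a continuous CR map if each of its components is a continuous CR function. -/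
def IsCRMap {n N : ℕ} (d : ℕ) (M : Set (Fin n → ℂ)) (f : (Fin n → ℂ) → (Fin N → ℂ)) : Prop :=
  ∀ j, IsCRFunction d M (fun q => f q j)

/-- The unit sphere `∂𝔹_N ⊂ ℂ^N`. -/
def unitSphere (N : ℕ) : Set (Fin N → ℂ) := {w | ∑ j, ‖w j‖ ^ 2 = 1}

/-- `f` extends meromorphically near `p`: on a neighbourhood `U` of `p` there are meromorphic
functions `F_j = P_j / Q_j` (`P_j, Q_j` holomorphic, `Q_j` not identically zero on any nonempty
open subset of `U`), such that `F = f` at each point of `M ∩ U` where `F` is holomorphic, that is,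
where there is a holomorphic map `G` with `G_j Q_j = P_j` near the point. -/
def ExtendsMeromorphically {n N : ℕ} (M : Set (Fin n → ℂ)) (p : Fin n → ℂ)
    (f : (Fin n → ℂ) → (Fin N → ℂ)) : Prop :=
  ∃ U : Set (Fin n → ℂ), IsOpen U ∧ p ∈ U ∧
    ∃ P Q : Fin N → (Fin n → ℂ) → ℂ,
      (∀ j, AnalyticOnNhd ℂ (P j) U ∧ AnalyticOnNhd ℂ (Q j) U ∧
        ∀ V ⊆ U, IsOpen V → V.Nonempty → ∃ x ∈ V, Q j x ≠ 0) ∧
      ∀ q ∈ M ∩ U, ∀ W ⊆ U, IsOpen W → q ∈ W →
        ∀ G : (Fin n → ℂ) → (Fin N → ℂ), AnalyticOnNhd ℂ G W →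
          (∀ x ∈ W, ∀ j, G x j * Q j x = P j x) → G q = f q

/-- `f` extends holomorphically to a neighbourhood of `p`. -/
def ExtendsHolomorphically {n N : ℕ} (M : Set (Fin n → ℂ)) (p : Fin n → ℂ)
    (f : (Fin n → ℂ) → (Fin N → ℂ)) : Prop :=
  ∃ U : Set (Fin n → ℂ), IsOpen U ∧ p ∈ U ∧
    ∃ G : (Fin n → ℂ) → (Fin N → ℂ), AnalyticOnNhd ℂ G U ∧ ∀ q ∈ M ∩ U, G q = f q

/-! ### The submanifold `M` -/

/-- The submanifold `M = {Im w = |z|², Im v = |w|² + |z|⁴}` of `ℂ³`. -/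
def M : Set (Fin 3 → ℂ) :=
  {q | (q 1).im = normSq (q 0) ∧ (q 2).im = normSq (q 1) + normSq (q 0) ^ 2}

/-- The defining map of `M`. -/
noncomputable def rM (q : Fin 3 → ℂ) : Fin 2 → ℝ :=
  ![(q 1).im - normSq (q 0), (q 2).im - (normSq (q 1) + normSq (q 0) ^ 2)]

lemma contDiff_coord_re (i : Fin 3) : ContDiff ℝ ω (fun q : Fin 3 → ℂ => (q i).re) :=
  Complex.reCLM.contDiff.comp (contDiff_apply ℝ ℂ i)
lemma contDiff_coord_im (i : Fin 3) : ContDiff ℝ ω (fun q : Fin 3 → ℂ => (q i).im) :=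
  Complex.imCLM.contDiff.comp (contDiff_apply ℝ ℂ i)
lemma contDiff_coord_normSq (i : Fin 3) : ContDiff ℝ ω (fun q : Fin 3 → ℂ => normSq (q i)) := by
  simp only [normSq_apply]
  exact ((contDiff_coord_re i).mul (contDiff_coord_re i)).add
    ((contDiff_coord_im i).mul (contDiff_coord_im i))

lemma contDiff_rM : ContDiff ℝ ω rM := by
  rw [contDiff_pi]
  intro i
  fin_cases i
  · exact (contDiff_coord_im 1).sub (contDiff_coord_normSq 0)
  · exact (contDiff_coord_im 2).sub ((contDiff_coord_normSq 1).add ((contDiff_coord_normSq 0).pow 2))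

lemma rM_surj (x : Fin 3 → ℂ) : Function.Surjective (fderiv ℝ rM x) := by
  intro b
  set v : Fin 3 → ℂ := ![0, (b 0 : ℂ) * I, ((b 1 + 2 * b 0 * (x 1).im : ℝ) : ℂ) * I] with hv
  refine ⟨v, ?_⟩
  have h1 : HasFDerivAt rM (fderiv ℝ rM x) x :=
    ((contDiff_rM.differentiable (by simp)) x).hasFDerivAt
  have hc : HasDerivAt (fun t : ℝ => x + t • v) v 0 := by
    simpa using ((hasDerivAt_id (0:ℝ)).smul_const v).const_add x
  have h2 : HasDerivAt (fun t : ℝ => rM (x + t • v)) (fderiv ℝ rM x v) 0 := by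
    have h1' : HasFDerivAt rM (fderiv ℝ rM x) (x + (0:ℝ) • v) := by simpa using h1
    exact h1'.comp_hasDerivAt 0 hc
  have h3 : HasDerivAt (fun t : ℝ => rM (x + t • v)) b 0 := by
    rw [hasDerivAt_pi]
    intro i
    fin_cases i
    · have : (fun t : ℝ => rM (x + t • v) 0) = fun t : ℝ => (x 1).im - normSq (x 0) + t * b 0 := by
        ext t
        simp [rM, hv]; ring
      change HasDerivAt (fun t : ℝ => rM (x + t • v) 0) (b 0) 0
      rw [this]
      simpa using ((hasDerivAt_id (0:ℝ)).mul_const (b 0)).const_add ((x 1).im - normSq (x 0))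
    · have : (fun t : ℝ => rM (x + t • v) 1) = fun t : ℝ =>
          ((x 2).im - (normSq (x 1) + normSq (x 0) ^ 2) + t * b 1) - t ^ 2 * b 0 ^ 2 := by
        ext t
        simp [rM, hv, normSq_apply]; ring
      change HasDerivAt (fun t : ℝ => rM (x + t • v) 1) (b 1) 0
      rw [this]
      have h4 := (((hasDerivAt_id (0:ℝ)).mul_const (b 1)).const_add
        ((x 2).im - (normSq (x 1) + normSq (x 0) ^ 2))).fun_sub
        (((hasDerivAt_pow 2 (0:ℝ)).mul_const (b 0 ^ 2)))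
      simpa using h4
  exact h2.unique h3

lemma isRealSubmanifold_M : IsRealSubmanifold ω 2 M := by
  intro q _
  refine ⟨univ, isOpen_univ, mem_univ _, rM, contDiff_rM.contDiffOn, fun x _ => rM_surj x, ?_⟩
  ext x
  simp only [inter_univ, mem_univ, true_and, mem_ofPred_eq, M]
  constructor
  · rintro ⟨h1, h2⟩
    ext i
    fin_cases i
    · simp [rM, h1]
    · simp [rM, h2]
  · intro h
    have h1 := congrFun h 0
    have h2 := congrFun h 1
    simp only [rM, Fin.isValue, Matrix.cons_val_zero, Matrix.cons_val_one, Pi.zero_apply] at h1 h2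
    constructor
    · linarith
    · linarith

/-- graph parametrization curve -/
noncomputable def curve (z ζ : ℂ) (s σ t τ : ℝ) (x : ℝ) : Fin 3 → ℂ :=
  ![z + x * ζ,
    ⟨s + x * σ, normSq (z + x * ζ)⟩,
    ⟨t + x * τ, (s + x * σ)^2 + 2 * normSq (z + x * ζ) ^ 2⟩]

lemma curve_mem (z ζ : ℂ) (s σ t τ x : ℝ) : curve z ζ s σ t τ x ∈ M := by
  constructor
  · simp [curve]
  · change (s + x * σ)^2 + 2 * normSq (z + x * ζ) ^ 2 =
      normSq (⟨s + x * σ, normSq (z + x * ζ)⟩ : ℂ) + normSq (z + x * ζ) ^ 2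
    generalize normSq (z + x * ζ) = N
    rw [normSq_mk]; ring

lemma hasDerivAt_mk {f g : ℝ → ℝ} {f' g' x : ℝ} (hf : HasDerivAt f f' x)
    (hg : HasDerivAt g g' x) : HasDerivAt (fun x => (⟨f x, g x⟩ : ℂ)) ⟨f', g'⟩ x := by
  have h := hf.ofReal_comp.fun_add (hg.ofReal_comp.mul_const I)
  simpa only [mk_eq_add_mul_I] using h

lemma hasDerivAt_curve (z ζ : ℂ) (s σ t τ : ℝ) :
    HasDerivAt (curve z ζ s σ t τ)
      ![ζ, ⟨σ, 2 * (z.re * ζ.re + z.im * ζ.im)⟩,
        ⟨τ, 2 * s * σ + 8 * normSq z * (z.re * ζ.re + z.im * ζ.im)⟩] 0 := by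
  have hx : HasDerivAt (fun x : ℝ => (x : ℂ)) 1 0 := by
    simpa using (hasDerivAt_id (0:ℝ)).ofReal_comp
  have hn : HasDerivAt (fun x : ℝ => normSq (z + x * ζ)) (2 * (z.re * ζ.re + z.im * ζ.im)) 0 := by
    have : (fun x : ℝ => normSq (z + x * ζ)) = fun x : ℝ =>
        normSq z + x * (2 * (z.re * ζ.re + z.im * ζ.im)) + x ^ 2 * normSq ζ := by
      ext x
      simp [normSq_apply]; ring
    rw [this]
    have := (((hasDerivAt_id (0:ℝ)).mul_const (2 * (z.re * ζ.re + z.im * ζ.im))).const_add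
      (normSq z)).fun_add ((hasDerivAt_pow 2 (0:ℝ)).mul_const (normSq ζ))
    simpa using this
  have h1 : HasDerivAt (fun x : ℝ => s + x * σ) σ 0 := by
    simpa using ((hasDerivAt_id (0:ℝ)).mul_const σ).const_add s
  have h1' : HasDerivAt (fun x : ℝ => t + x * τ) τ 0 := by
    simpa using ((hasDerivAt_id (0:ℝ)).mul_const τ).const_add t
  rw [hasDerivAt_pi]
  intro i
  fin_cases i
  · have := (hx.mul_const ζ).const_add z
    simpa [curve] using this
  · exact hasDerivAt_mk h1 hn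
  · have h3 : HasDerivAt (fun x : ℝ => (s + x * σ)^2 + 2 * normSq (z + x * ζ) ^ 2)
        (2 * s * σ + 8 * normSq z * (z.re * ζ.re + z.im * ζ.im)) 0 := by
      have h4 := (h1.fun_pow 2).fun_add ((hn.fun_pow 2).const_mul 2)
      refine h4.congr_deriv ?_
      simp; ring
    exact hasDerivAt_mk h1' h3

lemma mem_M_eq_curve {q : Fin 3 → ℂ} (hq : q ∈ M) (ζ : ℂ) (σ τ : ℝ) :
    curve (q 0) ζ (q 1).re σ (q 2).re τ 0 = q := by
  obtain ⟨h1, h2⟩ := hq
  ext i
  fin_cases i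
  · simp [curve]
  · apply Complex.ext
    · simp [curve]
    · simp [curve, h1]
  · apply Complex.ext
    · simp [curve]
    · change ((q 1).re + 0 * σ)^2 + 2 * normSq (q 0 + ((0:ℝ):ℂ) * ζ) ^ 2 = (q 2).im
      rw [h2, normSq_apply (q 1), h1]; simp; ring

lemma tangent_M {q : Fin 3 → ℂ} (hq : q ∈ M) (ζ : ℂ) (σ τ : ℝ) :
    ![ζ, ⟨σ, 2 * ((q 0).re * ζ.re + (q 0).im * ζ.im)⟩,
        ⟨τ, 2 * (q 1).re * σ + 8 * normSq (q 0) *
          ((q 0).re * ζ.re + (q 0).im * ζ.im)⟩] ∈ tangentVectors M q :=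
  ⟨curve (q 0) ζ (q 1).re σ (q 2).re τ, mem_M_eq_curve hq ζ σ τ, hasDerivAt_curve _ _ _ _ _ _,
    Filter.Eventually.of_forall fun x => curve_mem _ _ _ _ _ _ x⟩

lemma isGeneric_M : IsGeneric M := by
  intro q hq v
  set A2 : ℝ := 2 * ((q 0).re * (v 0).re + (q 0).im * (v 0).im) with hA2
  set A1 : ℝ := 8 * normSq (q 0) * ((q 0).re * (v 0).re + (q 0).im * (v 0).im) with hA1
  set σb : ℝ := (v 1).im - A2 with hσb
  refine ⟨_, tangent_M hq (v 0) (v 1).re ((v 2).re + 2 * (q 1).re * σb), _,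
    tangent_M hq 0 σb ((v 2).im - 2 * (q 1).re * (v 1).re - A1), ?_⟩
  ext i
  fin_cases i
  · simp
  · apply Complex.ext
    · simp
    · simp [hσb, hA2]
  · apply Complex.ext
    · simp
    · simp [hA1]

lemma two_le_infty : (2 : WithTop ℕ∞) ≤ ∞ := by
  have : ((2 : ℕ∞) : WithTop ℕ∞) ≤ ((⊤ : ℕ∞) : WithTop ℕ∞) := WithTop.coe_le_coe.2 le_top
  exact this

lemma one_add_one_le_infty : (1 : WithTop ℕ∞) + 1 ≤ ∞ := two_le_infty

/-! ### vector fields -/

noncomputable def XF (q : Fin 3 → ℂ) : Fin 3 → ℂ :=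
  ![1, 2 * I * conj (q 0), -4 * (conj (q 0) * conj (q 1)) + 4 * I * (q 0 * conj (q 0) ^ 2)]
noncomputable def YF (q : Fin 3 → ℂ) : Fin 3 → ℂ := I • XF q
noncomputable def TF (q : Fin 3 → ℂ) : Fin 3 → ℂ :=
  ![0, 1, 2 * I * conj (q 1) + 8 * (q 0 * conj (q 0))]
noncomputable def RF (q : Fin 3 → ℂ) : Fin 3 → ℂ := ![0, 0, 12 * (q 0 + conj (q 0))]

lemma contDiff_coord (i : Fin 3) : ContDiff ℝ ∞ (fun q : Fin 3 → ℂ => q i) := contDiff_apply ℝ ℂ i
lemma contDiff_conj (i : Fin 3) : ContDiff ℝ ∞ (fun q : Fin 3 → ℂ => conj (q i)) :=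
  Complex.conjCLE.contDiff.comp (contDiff_apply ℝ ℂ i)

lemma contDiff_XF : ContDiff ℝ ∞ XF := by
  rw [contDiff_pi]; intro i
  fin_cases i
  · exact contDiff_const
  · exact contDiff_const.mul (contDiff_conj 0)
  · exact (contDiff_const.mul ((contDiff_conj 0).mul (contDiff_conj 1))).add
      (contDiff_const.mul ((contDiff_coord 0).mul ((contDiff_conj 0).pow 2)))
lemma contDiff_YF : ContDiff ℝ ∞ YF := contDiff_XF.const_smul I
lemma contDiff_TF : ContDiff ℝ ∞ TF := by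
  rw [contDiff_pi]; intro i
  fin_cases i
  · exact contDiff_const
  · exact contDiff_const
  · exact (contDiff_const.mul (contDiff_conj 1)).add
      (contDiff_const.mul ((contDiff_coord 0).mul (contDiff_conj 0)))
lemma contDiff_RF : ContDiff ℝ ∞ RF := by
  rw [contDiff_pi]; intro i
  fin_cases i
  · exact contDiff_const
  · exact contDiff_const
  · exact contDiff_const.mul ((contDiff_coord 0).add (contDiff_conj 0))

lemma fderiv_eq_of_line {V : (Fin 3 → ℂ) → (Fin 3 → ℂ)} (hV : ContDiff ℝ ∞ V)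
    {q v w : Fin 3 → ℂ} (h : HasDerivAt (fun t : ℝ => V (q + t • v)) w 0) :
    fderiv ℝ V q v = w := by
  have h1 : HasFDerivAt V (fderiv ℝ V q) q := ((hV.differentiable (by simp)) q).hasFDerivAt
  have hc : HasDerivAt (fun t : ℝ => q + t • v) v 0 := by
    simpa using ((hasDerivAt_id (0:ℝ)).smul_const v).const_add q
  have h1' : HasFDerivAt V (fderiv ℝ V q) (q + (0:ℝ) • v) := by simpa using h1
  exact (h1'.comp_hasDerivAt 0 hc).unique h

lemma hd_coord (q v : Fin 3 → ℂ) (i : Fin 3) :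
    HasDerivAt (fun t : ℝ => (q + t • v) i) (v i) 0 := by
  have hc : HasDerivAt (fun t : ℝ => q + t • v) v 0 := by
    simpa using ((hasDerivAt_id (0:ℝ)).smul_const v).const_add q
  exact (hasDerivAt_pi.1 hc) i
lemma hd_conj (q v : Fin 3 → ℂ) (i : Fin 3) :
    HasDerivAt (fun t : ℝ => conj ((q + t • v) i)) (conj (v i)) 0 :=
  Complex.conjCLE.hasFDerivAt.comp_hasDerivAt 0 (hd_coord q v i)

lemma fderiv_XF (q v : Fin 3 → ℂ) : fderiv ℝ XF q v =
    ![0, 2 * I * conj (v 0), -4 * (conj (v 0) * conj (q 1) + conj (q 0) * conj (v 1)) +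
      4 * I * (v 0 * conj (q 0) ^ 2 + q 0 * (2 * conj (q 0) * conj (v 0)))] := by
  apply fderiv_eq_of_line contDiff_XF
  rw [hasDerivAt_pi]; intro i
  fin_cases i
  · exact hasDerivAt_const _ _
  · exact (hd_conj q v 0).const_mul _
  · have := (((hd_conj q v 0).fun_mul (hd_conj q v 1)).const_mul (-4)).fun_add
      (((hd_coord q v 0).fun_mul ((hd_conj q v 0).fun_pow 2)).const_mul (4 * I))
    refine this.congr_deriv ?_
    simp

lemma fderiv_YF (q v : Fin 3 → ℂ) : fderiv ℝ YF q v = I • fderiv ℝ XF q v := by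
  have : YF = fun q => I • XF q := rfl
  rw [this, fderiv_fun_const_smul ((contDiff_XF.differentiable (by simp)) q)]
  rfl

lemma fderiv_TF (q v : Fin 3 → ℂ) : fderiv ℝ TF q v =
    ![0, 0, 2 * I * conj (v 1) + 8 * (v 0 * conj (q 0) + q 0 * conj (v 0))] := by
  apply fderiv_eq_of_line contDiff_TF
  rw [hasDerivAt_pi]; intro i
  fin_cases i
  · exact hasDerivAt_const _ _
  · exact hasDerivAt_const _ _
  · have := ((hd_conj q v 1).const_mul (2 * I)).fun_add
      (((hd_coord q v 0).fun_mul (hd_conj q v 0)).const_mul 8)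
    refine this.congr_deriv ?_
    simp

lemma fderiv_RF (q v : Fin 3 → ℂ) : fderiv ℝ RF q v =
    ![0, 0, 12 * (v 0 + conj (v 0))] := by
  apply fderiv_eq_of_line contDiff_RF
  rw [hasDerivAt_pi]; intro i
  fin_cases i
  · exact hasDerivAt_const _ _
  · exact hasDerivAt_const _ _
  · exact ((hd_coord q v 0).fun_add (hd_conj q v 0)).const_mul 12

lemma bracket_XY (q : Fin 3 → ℂ) :
    fderiv ℝ YF q (XF q) - fderiv ℝ XF q (YF q) = (-4 : ℝ) • TF q := by
  rw [fderiv_YF, fderiv_XF, fderiv_XF]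
  ext i
  fin_cases i
  · simp [TF, XF, YF]
  · simp [TF, XF, YF]
    linear_combination 4 * I_sq
  · have h2 : conj (2 : ℂ) = 2 := map_ofNat _ 2
    simp [TF, XF, YF, h2]
    linear_combination (32 * q 0 * conj (q 0)) * I_sq

lemma bracket_XT (q : Fin 3 → ℂ) :
    fderiv ℝ TF q (XF q) - fderiv ℝ XF q (TF q) = RF q := by
  rw [fderiv_TF, fderiv_XF]
  ext i
  fin_cases i
  · simp [TF, XF, RF]
  · simp [TF, XF, RF]
  · have h2 : conj (2 : ℂ) = 2 := map_ofNat _ 2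
    simp [TF, XF, RF, h2]
    linear_combination (-4 * q 0) * I_sq

lemma bracket_XR (q : Fin 3 → ℂ) :
    fderiv ℝ RF q (XF q) - fderiv ℝ XF q (RF q) = ![0, 0, 24] := by
  rw [fderiv_RF, fderiv_XF]
  ext i
  fin_cases i
  · simp [RF, XF]
  · simp [RF, XF]
  · simp [RF, XF]; norm_num

lemma smul_XF_mem {q : Fin 3 → ℂ} (hq : q ∈ M) (c : ℂ) : c • XF q ∈ tangentVectors M q := by
  have h := tangent_M hq c (c * (2 * I * conj (q 0))).re
    (c * (-4 * (conj (q 0) * conj (q 1)) + 4 * I * (q 0 * conj (q 0) ^ 2))).re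
  convert h using 1
  ext i
  fin_cases i
  · simp [XF]
  · apply Complex.ext
    · simp [XF]
    · simp [XF]; ring
  · apply Complex.ext
    · simp [XF]
    · have h1 := hq.1
      rw [normSq_apply] at h1
      simp only [XF, pow_two, normSq_apply]
      simp
      rw [h1]
      ring

lemma XF_mem {q : Fin 3 → ℂ} (hq : q ∈ M) (c : ℂ) : c • XF q ∈ complexTangentVectors M q := by
  refine ⟨smul_XF_mem hq c, (-I * c) • XF q, smul_XF_mem hq _, ?_⟩
  rw [smul_smul, show I * (-I * c) = c by linear_combination (-c) * I_sq]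


/-! ### functions vanishing on S -/

variable {c : ℕ}

lemma fderiv_tangent {S U : Set (Fin 3 → ℂ)} (hU : IsOpen U) {a : (Fin 3 → ℂ) → (Fin c → ℝ)}
    (ha : ContDiffOn ℝ ∞ a U) (h0 : ∀ q ∈ S ∩ U, a q = 0) {q : Fin 3 → ℂ} (hq : q ∈ S ∩ U)
    {v : Fin 3 → ℂ} (hv : v ∈ tangentVectors S q) : fderiv ℝ a q v = 0 := by
  obtain ⟨γ, hγ0, hγ, hγS⟩ := hv
  have h1 : HasFDerivAt a (fderiv ℝ a q) (γ 0) := by
    rw [hγ0]
    exact ((ha.contDiffAt (hU.mem_nhds hq.2)).differentiableAt (by simp)).hasFDerivAt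
  have h2 : HasDerivAt (fun t => a (γ t)) (fderiv ℝ a q v) 0 := h1.comp_hasDerivAt 0 hγ
  have hγU : ∀ᶠ t in 𝓝 (0 : ℝ), γ t ∈ U := by
    have : U ∈ 𝓝 (γ 0) := by rw [hγ0]; exact hU.mem_nhds hq.2
    exact hγ.continuousAt this
  have h3 : (fun t => a (γ t)) =ᶠ[𝓝 0] fun _ => (0 : Fin c → ℝ) := by
    filter_upwards [hγS, hγU] with t h4 h5 using h0 _ ⟨h4, h5⟩
  have h4 : HasDerivAt (fun t => a (γ t)) 0 0 := (hasDerivAt_const (0:ℝ) _).congr_of_eventuallyEq h3
  exact h2.unique h4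

/-- derivative along a vector field -/
noncomputable def DV (V : (Fin 3 → ℂ) → (Fin 3 → ℂ)) (a : (Fin 3 → ℂ) → (Fin c → ℝ))
    (q : Fin 3 → ℂ) : Fin c → ℝ := fderiv ℝ a q (V q)

def Van (S U : Set (Fin 3 → ℂ)) (a : (Fin 3 → ℂ) → (Fin c → ℝ)) : Prop :=
  ContDiffOn ℝ ∞ a U ∧ ∀ q ∈ S ∩ U, a q = 0

lemma contDiffOn_DV {U : Set (Fin 3 → ℂ)} (hU : IsOpen U) {V : (Fin 3 → ℂ) → (Fin 3 → ℂ)}
    (hV : ContDiff ℝ ∞ V) {a : (Fin 3 → ℂ) → (Fin c → ℝ)} (ha : ContDiffOn ℝ ∞ a U) :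
    ContDiffOn ℝ ∞ (DV V a) U :=
  (ha.fderiv_of_isOpen hU (by simp)).clm_apply hV.contDiffOn

lemma bracket_formula {U : Set (Fin 3 → ℂ)} (hU : IsOpen U)
    {V W : (Fin 3 → ℂ) → (Fin 3 → ℂ)} (hV : ContDiff ℝ ∞ V) (hW : ContDiff ℝ ∞ W)
    {a : (Fin 3 → ℂ) → (Fin c → ℝ)} (ha : ContDiffOn ℝ ∞ a U) {q : Fin 3 → ℂ} (hq : q ∈ U) :
    DV V (DV W a) q - DV W (DV V a) q =
      fderiv ℝ a q (fderiv ℝ W q (V q) - fderiv ℝ V q (W q)) := by
  have ha' : ContDiffAt ℝ ∞ a q := ha.contDiffAt (hU.mem_nhds hq)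
  have h1 : DifferentiableAt ℝ (fderiv ℝ a) q :=
    (ha'.fderiv_right (m := 1) one_add_one_le_infty).differentiableAt (by simp)
  have key : ∀ {W : (Fin 3 → ℂ) → (Fin 3 → ℂ)}, ContDiff ℝ ∞ W → ∀ v,
      fderiv ℝ (DV W a) q v = fderiv ℝ (fderiv ℝ a) q v (W q) + fderiv ℝ a q (fderiv ℝ W q v) := by
    intro W hW v
    have h2 : HasFDerivAt W (fderiv ℝ W q) q := ((hW.differentiable (by simp)) q).hasFDerivAt
    have h3 := h1.hasFDerivAt.clm_apply h2
    have h4 := h3.fderiv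
    change fderiv ℝ (fun y => (fderiv ℝ a y) (W y)) q v = _
    rw [h4]
    simp [add_comm]
  have hs : IsSymmSndFDerivAt ℝ a q := ha'.isSymmSndFDerivAt (by
    rw [minSmoothness_of_isRCLikeNormedField]; exact two_le_infty)
  have e1 : DV V (DV W a) q = fderiv ℝ (DV W a) q (V q) := rfl
  have e2 : DV W (DV V a) q = fderiv ℝ (DV V a) q (W q) := rfl
  rw [e1, e2, key hW, key hV, map_sub, hs.eq (V q) (W q)]
  abel

theorem isMinimal_M : IsMinimalAt 2 M 0 := by
  rintro ⟨c, S, hc, hS, hSM, h0S, hT⟩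
  obtain ⟨U, hU, h0U, r, hr, hsurj, hSU⟩ := hS 0 h0S
  have hXt : ∀ q ∈ S, ∀ z : ℂ, z • XF q ∈ tangentVectors S q := fun q hq z =>
    hT q hq (XF_mem (hSM hq) z)
  have hX : ∀ a : (Fin 3 → ℂ) → (Fin c → ℝ), Van S U a → Van S U (DV XF a) := by
    intro a ha
    refine ⟨contDiffOn_DV hU contDiff_XF ha.1, fun q hq => ?_⟩
    exact fderiv_tangent hU ha.1 ha.2 hq (by simpa using hXt q hq.1 1)
  have hY : ∀ a : (Fin 3 → ℂ) → (Fin c → ℝ), Van S U a → Van S U (DV YF a) := by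
    intro a ha
    refine ⟨contDiffOn_DV hU contDiff_YF ha.1, fun q hq => ?_⟩
    exact fderiv_tangent hU ha.1 ha.2 hq (hXt q hq.1 I)
  have hTV : ∀ a : (Fin 3 → ℂ) → (Fin c → ℝ), Van S U a → Van S U (DV TF a) := by
    intro a ha
    refine ⟨contDiffOn_DV hU contDiff_TF ha.1, fun q hq => ?_⟩
    have h1 := bracket_formula hU contDiff_XF contDiff_YF ha.1 hq.2
    rw [(hX _ (hY a ha)).2 q hq, (hY _ (hX a ha)).2 q hq, bracket_XY, map_smul, sub_zero] at h1
    have h2 : fderiv ℝ a q (TF q) = 0 := by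
      rcases smul_eq_zero.1 h1.symm with h | h
      · norm_num at h
      · exact h
    exact h2
  have hRV : ∀ a : (Fin 3 → ℂ) → (Fin c → ℝ), Van S U a → Van S U (DV RF a) := by
    intro a ha
    refine ⟨contDiffOn_DV hU contDiff_RF ha.1, fun q hq => ?_⟩
    have h1 := bracket_formula hU contDiff_XF contDiff_TF ha.1 hq.2
    rw [(hX _ (hTV a ha)).2 q hq, (hTV _ (hX a ha)).2 q hq, bracket_XT, sub_zero] at h1
    exact h1.symm
  have hr0 : Van S U r := ⟨hr, fun q hq => by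
    have : q ∈ S ∩ U := hq
    rw [hSU] at this
    exact this.2⟩
  have h00 : (0 : Fin 3 → ℂ) ∈ S ∩ U := ⟨h0S, h0U⟩
  set L := fderiv ℝ r 0 with hL
  have k1 : L (XF 0) = 0 := (hX r hr0).2 0 h00
  have k2 : L (YF 0) = 0 := (hY r hr0).2 0 h00
  have k3 : L (TF 0) = 0 := (hTV r hr0).2 0 h00
  have k4 : L ![0, 0, 24] = 0 := by
    have h1 := bracket_formula hU contDiff_XF contDiff_RF hr0.1 h00.2
    rw [(hX _ (hRV r hr0)).2 0 h00, (hRV _ (hX r hr0)).2 0 h00, bracket_XR, sub_zero] at h1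
    exact h1.symm
  have hdec : ∀ v : Fin 3 → ℂ, L v = (v 1).im • L ![0, I, 0] + (v 2).im • L ![0, 0, I] := by
    intro v
    have hv : v = (v 0).re • XF 0 + (v 0).im • YF 0 + (v 1).re • TF 0
        + ((v 2).re / 24) • ![0, 0, 24] + (v 1).im • ![0, I, 0] + (v 2).im • ![0, 0, I] := by
      ext i
      fin_cases i
      · apply Complex.ext <;> simp [XF, YF, TF]
      · apply Complex.ext <;> simp [XF, YF, TF]
      · apply Complex.ext
        · simp [XF, YF, TF]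
        · simp [XF, YF, TF]
    calc L v = L ((v 0).re • XF 0 + (v 0).im • YF 0 + (v 1).re • TF 0
        + ((v 2).re / 24) • ![0, 0, 24] + (v 1).im • ![0, I, 0] + (v 2).im • ![0, 0, I]) := by
          rw [← hv]
      _ = _ := by
          simp only [map_add, map_smul, k1, k2, k3, k4, smul_zero, zero_add]
  have hspan : (⊤ : Submodule ℝ (Fin c → ℝ)) ≤
      Submodule.span ℝ (({L ![0, I, 0], L ![0, 0, I]} : Finset (Fin c → ℝ)) : Set (Fin c → ℝ)) := by
    intro b _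
    obtain ⟨v, hv⟩ := hsurj 0 h0U b
    rw [← hv]
    change L v ∈ _
    rw [hdec v]
    refine Submodule.add_mem _ (Submodule.smul_mem _ _ (Submodule.subset_span ?_))
      (Submodule.smul_mem _ _ (Submodule.subset_span ?_))
    · simp
    · simp
  have h1 : Module.finrank ℝ (Fin c → ℝ) ≤ 2 := by
    have h2 := finrank_span_finset_le_card (R := ℝ)
      ({L ![0, I, 0], L ![0, 0, I]} : Finset (Fin c → ℝ))
    rw [Set.finrank, top_le_iff.1 hspan, finrank_top] at h2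
    exact h2.trans Finset.card_le_two
  rw [Module.finrank_fin_fun] at h1
  omega

/-! ### CR functions as limits of holomorphic functions -/

lemma contDiff_of_tsupport' {m : ℕ} {u : EuclideanSpace ℝ (Fin m) → ℂ}
    (h : ∀ x ∈ tsupport u, ContDiffAt ℝ ∞ u x) : ContDiff ℝ ∞ u := by
  rw [contDiff_iff_contDiffAt]
  intro x
  by_cases hx : x ∈ tsupport u
  · exact h x hx
  · have h0 : u =ᶠ[𝓝 x] fun _ => 0 := notMem_tsupport_iff_eventuallyEq.1 hx
    exact contDiffAt_const.congr_of_eventuallyEq h0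

lemma integrable_of_continuousOn {m : ℕ} {O K : Set (EuclideanSpace ℝ (Fin m))}
    (hK : IsCompact K) (hKO : K ⊆ O) {u : EuclideanSpace ℝ (Fin m) → ℂ}
    (hu : ContinuousOn u O) (h0 : ∀ x, x ∉ K → u x = 0) : Integrable u := by
  have h1 : IntegrableOn u K := (hu.mono hKO).integrableOn_compact hK
  rwa [integrableOn_iff_integrable_of_support_subset] at h1
  intro x hx
  by_contra hxK
  exact hx (h0 x hxK)

lemma cr_of_holomorphic {n m : ℕ} {O : Set (EuclideanSpace ℝ (Fin m))} (hO : IsOpen O)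
    {ψ : EuclideanSpace ℝ (Fin m) → (Fin n → ℂ)} (hψ : ContDiffOn ℝ ∞ ψ O)
    {W : Set (Fin n → ℂ)} (hW : IsOpen W) (hψW : MapsTo ψ O W)
    {G : (Fin n → ℂ) → ℂ} (hG : AnalyticOnNhd ℂ G W)
    {X : Fin m → EuclideanSpace ℝ (Fin m) → ℂ} (hX : ∀ i, ContDiffOn ℝ ∞ (X i) O)
    (hXψ : ∀ x ∈ O, ∑ i, X i x • fderiv ℝ ψ x (EuclideanSpace.single i 1) = 0)
    {χ : EuclideanSpace ℝ (Fin m) → ℂ} (hχ : ContDiff ℝ ∞ χ) (hχc : HasCompactSupport χ)
    (hχO : tsupport χ ⊆ O) :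
    ∫ x in O, G (ψ x) *
        ∑ i, fderiv ℝ (fun y => X i y * χ y) x (EuclideanSpace.single i 1) = 0 := by
  set e : Fin m → EuclideanSpace ℝ (Fin m) := fun i => EuclideanSpace.single i 1 with he
  set k : Fin m → EuclideanSpace ℝ (Fin m) → ℂ := fun i y => X i y * χ y with hk
  have hts : ∀ i, tsupport (k i) ⊆ tsupport χ := fun i => tsupport_mul_subset_right
  have hkd : ∀ i, ContDiff ℝ ∞ (k i) := by
    intro i
    apply contDiff_of_tsupport'
    intro x hx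
    have hxO : x ∈ O := hχO (hts i hx)
    exact ((hX i).contDiffAt (hO.mem_nhds hxO)).mul hχ.contDiffAt
  have hfk : ∀ i x, x ∉ tsupport χ → fderiv ℝ (k i) x = 0 := by
    intro i x hx
    by_contra hne
    exact hx (hts i ((support_fderiv_subset ℝ) hne))
  have hφ : ∀ x ∈ O, HasFDerivAt (fun x => G (ψ x))
      (((fderiv ℂ G (ψ x)).restrictScalars ℝ).comp (fderiv ℝ ψ x)) x := by
    intro x hx
    have h1 : HasFDerivAt G ((fderiv ℂ G (ψ x)).restrictScalars ℝ) (ψ x) :=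
      ((hG (ψ x) (hψW hx)).differentiableAt.hasFDerivAt).restrictScalars ℝ
    have h2 : HasFDerivAt ψ (fderiv ℝ ψ x) x :=
      ((hψ.contDiffAt (hO.mem_nhds hx)).differentiableAt (by simp)).hasFDerivAt
    exact h1.comp x h2
  have hGc : ContDiffOn ℂ ∞ G W := hG.contDiffOn (IsOpen.uniqueDiffOn hW)
  have hφc : ContDiffOn ℝ ∞ (fun x => G (ψ x)) O :=
    (hGc.restrict_scalars ℝ).comp hψ hψW
  have hφ0 : ContinuousOn (fun x => G (ψ x)) O := hφc.continuousOn
  have hφ1 : ContinuousOn (fun x => fderiv ℝ (fun x => G (ψ x)) x) O :=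
    hφc.continuousOn_fderiv_of_isOpen hO (by simp)
  have hk1 : ∀ i, Continuous (fun x => fderiv ℝ (k i) x (e i)) := fun i =>
    ((hkd i).continuous_fderiv (by simp)).clm_apply continuous_const
  have hint1 : ∀ i, Integrable (fun x => G (ψ x) * fderiv ℝ (k i) x (e i)) := by
    intro i
    refine integrable_of_continuousOn hχc hχO (hφ0.mul (hk1 i).continuousOn) ?_
    intro x hx
    rw [hfk i x hx]; simp
  have hint2 : ∀ i, Integrable (fun x => fderiv ℝ (fun x => G (ψ x)) x (e i) * k i x) := by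
    intro i
    refine integrable_of_continuousOn hχc hχO
      ((hφ1.clm_apply continuousOn_const).mul (hkd i).continuous.continuousOn) ?_
    intro x hx
    have : k i x = 0 := image_eq_zero_of_notMem_tsupport (fun h => hx (hts i h))
    rw [this]; simp
  have hint3 : ∀ i, Integrable (fun x => G (ψ x) * k i x) := by
    intro i
    refine integrable_of_continuousOn hχc hχO (hφ0.mul (hkd i).continuous.continuousOn) ?_
    intro x hx
    have : k i x = 0 := image_eq_zero_of_notMem_tsupport (fun h => hx (hts i h))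
    rw [this]; simp
  have hibp : ∀ i, ∫ x, G (ψ x) * fderiv ℝ (k i) x (e i) =
      - ∫ x, fderiv ℝ (fun x => G (ψ x)) x (e i) * k i x := by
    intro i
    refine integral_mul_fderiv_eq_neg_fderiv_mul_of_integrable (hint2 i) (hint1 i) (hint3 i) ?_ ?_
    · intro x hx
      exact (hφ x (hχO (hts i hx))).differentiableAt
    · intro x _
      exact (hkd i).differentiable (by simp) x
  rw [setIntegral_eq_integral_of_forall_compl_eq_zero]
  · have hsum : (fun x => G (ψ x) * ∑ i, fderiv ℝ (k i) x (e i)) =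
        fun x => ∑ i, G (ψ x) * fderiv ℝ (k i) x (e i) := by
      ext x; rw [Finset.mul_sum]
    change ∫ x, G (ψ x) * ∑ i, fderiv ℝ (k i) x (e i) = 0
    rw [hsum, integral_finsetSum _ (fun i _ => hint1 i)]
    simp_rw [hibp]
    rw [Finset.sum_neg_distrib, ← integral_finsetSum _ (fun i _ => hint2 i)]
    rw [neg_eq_zero]
    have : (fun x => ∑ i, fderiv ℝ (fun x => G (ψ x)) x (e i) * k i x) = fun _ => 0 := by
      ext x
      by_cases hx : x ∈ O
      · have h3 : ∀ i, fderiv ℝ (fun x => G (ψ x)) x (e i) =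
            fderiv ℂ G (ψ x) (fderiv ℝ ψ x (e i)) := by
          intro i; rw [(hφ x hx).fderiv]; rfl
        simp_rw [h3, hk]
        have h4 : fderiv ℂ G (ψ x) (∑ i, X i x • fderiv ℝ ψ x (e i)) = 0 := by
          rw [hXψ x hx, map_zero]
        rw [map_sum] at h4
        simp only [map_smul, smul_eq_mul] at h4
        calc ∑ i, fderiv ℂ G (ψ x) (fderiv ℝ ψ x (e i)) * (X i x * χ x)
            = (∑ i, X i x * fderiv ℂ G (ψ x) (fderiv ℝ ψ x (e i))) * χ x := by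
              rw [Finset.sum_mul]; congr 1; ext i; ring
          _ = 0 := by rw [h4, zero_mul]
      · apply Finset.sum_eq_zero
        intro i _
        have : k i x = 0 :=
          image_eq_zero_of_notMem_tsupport (fun h => hx (hχO (hts i h)))
        rw [this, mul_zero]
    rw [this]; simp
  · intro x hx
    have : ∀ i, fderiv ℝ (k i) x (e i) = 0 := by
      intro i; rw [hfk i x (fun h => hx (hχO h))]; simp
    change G (ψ x) * ∑ i, fderiv ℝ (k i) x (e i) = 0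
    simp [this]

/-- limits -/
lemma cr_of_limit {n m : ℕ} {M : Set (Fin n → ℂ)} {O : Set (EuclideanSpace ℝ (Fin m))}
    (hO : IsOpen O)
    {ψ : EuclideanSpace ℝ (Fin m) → (Fin n → ℂ)} (hψ : ContDiffOn ℝ ∞ ψ O)
    (hψM : MapsTo ψ O M)
    {W : ℕ → Set (Fin n → ℂ)} (hW : ∀ k, IsOpen (W k)) (hMW : ∀ k, M ⊆ W k)
    {G : ℕ → (Fin n → ℂ) → ℂ} (hG : ∀ k, AnalyticOnNhd ℂ (G k) (W k))
    {B : (Fin n → ℂ) → ℝ} (hB : Continuous B) (hGB : ∀ k, ∀ q ∈ M, ‖G k q‖ ≤ B q)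
    {f : (Fin n → ℂ) → ℂ} (hlim : ∀ q ∈ M, Filter.Tendsto (fun k => G k q) Filter.atTop (𝓝 (f q)))
    {X : Fin m → EuclideanSpace ℝ (Fin m) → ℂ} (hX : ∀ i, ContDiffOn ℝ ∞ (X i) O)
    (hXψ : ∀ x ∈ O, ∑ i, X i x • fderiv ℝ ψ x (EuclideanSpace.single i 1) = 0)
    {χ : EuclideanSpace ℝ (Fin m) → ℂ} (hχ : ContDiff ℝ ∞ χ) (hχc : HasCompactSupport χ)
    (hχO : tsupport χ ⊆ O) :
    ∫ x in O, f (ψ x) *
        ∑ i, fderiv ℝ (fun y => X i y * χ y) x (EuclideanSpace.single i 1) = 0 := by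
  have h0 : ∀ k, ∫ x in O, G k (ψ x) *
        ∑ i, fderiv ℝ (fun y => X i y * χ y) x (EuclideanSpace.single i 1) = 0 := fun k =>
    cr_of_holomorphic hO hψ (hW k) (fun x hx => hMW k (hψM hx)) (hG k) hX hXψ hχ hχc hχO
  set D : EuclideanSpace ℝ (Fin m) → ℂ := fun x =>
    ∑ i, fderiv ℝ (fun y => X i y * χ y) x (EuclideanSpace.single i 1) with hD
  have hts : ∀ i, tsupport (fun y => X i y * χ y) ⊆ tsupport χ := fun i =>
    tsupport_mul_subset_right
  have hkd : ∀ i, ContDiff ℝ ∞ (fun y => X i y * χ y) := by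
    intro i
    apply contDiff_of_tsupport'
    intro x hx
    have hxO : x ∈ O := hχO (hts i hx)
    exact ((hX i).contDiffAt (hO.mem_nhds hxO)).mul hχ.contDiffAt
  have hDc : Continuous D := by
    apply continuous_finsetSum
    intro i _
    exact ((hkd i).continuous_fderiv (by simp)).clm_apply continuous_const
  have hD0 : ∀ x, x ∉ tsupport χ → D x = 0 := by
    intro x hx
    apply Finset.sum_eq_zero
    intro i _
    have : fderiv ℝ (fun y => X i y * χ y) x = 0 := by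
      by_contra hne
      exact hx (hts i ((support_fderiv_subset ℝ) hne))
    rw [this]; simp
  have hlimI : Filter.Tendsto (fun k => ∫ x in O, G k (ψ x) * D x) Filter.atTop
      (𝓝 (∫ x in O, f (ψ x) * D x)) := by
    refine tendsto_integral_of_dominated_convergence (fun x => B (ψ x) * ‖D x‖) ?_ ?_ ?_ ?_
    · intro k
      have hc : ContinuousOn (fun x => G k (ψ x) * D x) O := by
        refine ContinuousOn.mul ?_ hDc.continuousOn
        exact ((hG k).continuousOn).comp hψ.continuousOn (fun x hx => hMW k (hψM hx))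
      exact hc.aestronglyMeasurable hO.measurableSet
    · have h5 : Integrable (fun x => ((B (ψ x) : ℂ) * D x)) := by
        refine integrable_of_continuousOn hχc hχO ?_ ?_
        · refine ContinuousOn.mul ?_ hDc.continuousOn
          exact (Complex.continuous_ofReal.comp hB).comp_continuousOn hψ.continuousOn
        · intro x hx; rw [hD0 x hx, mul_zero]
      have h6 : IntegrableOn (fun x => ‖((B (ψ x) : ℂ) * D x)‖) O := h5.norm.integrableOn
      refine h6.congr_fun ?_ hO.measurableSet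
      intro x hx
      have hBn : 0 ≤ B (ψ x) := le_trans (norm_nonneg _) (hGB 0 _ (hψM hx))
      simp only [norm_mul, Complex.norm_real, Real.norm_eq_abs, abs_of_nonneg hBn]
    · intro k
      filter_upwards [self_mem_ae_restrict hO.measurableSet] with x hx
      rw [norm_mul]
      exact mul_le_mul_of_nonneg_right (hGB k _ (hψM hx)) (norm_nonneg _)
    · filter_upwards [self_mem_ae_restrict hO.measurableSet] with x hx
      exact (hlim _ (hψM hx)).mul_const _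
  have h7 : (fun k => ∫ x in O, G k (ψ x) * D x) = fun _ => 0 := by
    ext k; exact h0 k
  rw [h7] at hlimI
  exact tendsto_nhds_unique hlimI tendsto_const_nhds |>.trans rfl

/-! ### The map -/

noncomputable def yF (ε : ℂ) (q : Fin 3 → ℂ) : ℂ := q 1 ^ 2 / (q 2 + ε)
noncomputable def hF (ε : ℂ) (q : Fin 3 → ℂ) : ℂ :=
  q 1 ^ 2 * yF ε q - I * q 1 ^ 2 + 2 * q 2 + q 1
noncomputable def gF (ε : ℂ) (q : Fin 3 → ℂ) : Fin 4 → ℂ :=
  ![(I - hF ε q) / 2, q 1 * (yF ε q + I), q 0 ^ 2 * (yF ε q - 2 * I), q 0]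
noncomputable def F (ε : ℂ) (q : Fin 3 → ℂ) (j : Fin 4) : ℂ := 2 * gF ε q j / (I + hF ε q)


lemma normSq_w_le {q : Fin 3 → ℂ} (hq : q ∈ M) : normSq (q 1) ≤ (q 2).im := by
  rw [hq.2]; nlinarith [sq_nonneg (normSq (q 0))]

lemma im_nonneg {q : Fin 3 → ℂ} (hq : q ∈ M) : 0 ≤ (q 2).im :=
  le_trans (normSq_nonneg _) (normSq_w_le hq)

lemma eq_zero_of_v {q : Fin 3 → ℂ} (hq : q ∈ M) (h2 : q 2 = 0) : q = 0 := by
  have h := hq.2
  rw [h2] at h
  simp only [zero_im] at h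
  have h1 : normSq (q 1) = 0 := by nlinarith [normSq_nonneg (q 1), sq_nonneg (normSq (q 0))]
  have h0 : normSq (q 0) = 0 := by
    have : normSq (q 0) ^ 2 = 0 := by nlinarith [normSq_nonneg (q 1), sq_nonneg (normSq (q 0))]
    exact pow_eq_zero_iff (two_ne_zero) |>.1 this
  ext i
  fin_cases i
  · simpa using (normSq_eq_zero.1 h0)
  · simpa using (normSq_eq_zero.1 h1)
  · simpa using h2

/-- Main identity -/
lemma im_hF {q : Fin 3 → ℂ} (hq : q ∈ M) :
    (hF 0 q).im = normSq (q 1 * (yF 0 q + I)) + normSq (q 0 ^ 2 * (yF 0 q - 2 * I))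
      + normSq (q 0) := by
  by_cases h2 : q 2 = 0
  · rw [eq_zero_of_v hq h2]
    simp [hF, yF]
  · have hy : q 2 * yF 0 q = q 1 ^ 2 := by
      simp only [yF, add_zero]
      field_simp
    have e1 := congrArg Complex.re hy
    have e2 := congrArg Complex.im hy
    obtain ⟨a1, a2⟩ := hq
    unfold hF
    generalize yF 0 q = y at *
    generalize q 2 = v at *
    generalize q 1 = w at *
    generalize q 0 = z at *
    have hz : normSq (z ^ 2 * (y - 2 * I)) = (normSq z) ^ 2 * normSq (y - 2 * I) := by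
      rw [map_mul, map_pow]
    rw [hz, map_mul]
    generalize normSq z = Z at *
    simp only [pow_two, normSq_apply, mul_re, mul_im, add_re, add_im, sub_re, sub_im, I_re, I_im,
      re_ofNat, im_ofNat, zero_mul, one_mul, mul_zero, sub_zero, add_zero, zero_add, mul_one] at *
    subst a1
    linear_combination (y.im) * e1 + (-y.re) * e2 + a2 * (2 + y.re^2 + y.im^2)

lemma norm_w_sq_le {q : Fin 3 → ℂ} (hq : q ∈ M) {e : ℝ} (he : 0 ≤ e) :
    ‖q 1‖ ^ 2 ≤ ‖q 2 + e * I‖ := by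
  have h1 : (q 2 + e * I).im = (q 2).im + e := by simp
  calc ‖q 1‖ ^ 2 = normSq (q 1) := (normSq_eq_norm_sq _).symm
    _ ≤ (q 2).im := normSq_w_le hq
    _ ≤ (q 2 + e * I).im := by rw [h1]; linarith
    _ ≤ |(q 2 + e * I).im| := le_abs_self _
    _ ≤ ‖q 2 + e * I‖ := abs_im_le_norm _

lemma norm_yF_le {q : Fin 3 → ℂ} (hq : q ∈ M) {e : ℝ} (he : 0 ≤ e) : ‖yF (e * I) q‖ ≤ 1 := by
  unfold yF
  rw [norm_div, norm_pow]
  exact div_le_one_of_le₀ (norm_w_sq_le hq he) (norm_nonneg _)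

lemma norm_yF_zero_le {q : Fin 3 → ℂ} (hq : q ∈ M) : ‖yF 0 q‖ ≤ 1 := by
  simpa using norm_yF_le hq (le_refl (0:ℝ))

lemma hF_sub {q : Fin 3 → ℂ} (hq : q ∈ M) {e : ℝ} (he : 0 ≤ e) :
    ‖hF (e * I) q - hF 0 q‖ ≤ e := by
  have h0 : hF (e * I) q - hF 0 q = q 1 ^ 2 * (yF (e * I) q - yF 0 q) := by
    unfold hF; ring
  rw [h0]
  by_cases h2 : q 2 = 0
  · rw [eq_zero_of_v hq h2]; simpa using he
  · by_cases h3 : q 2 + e * I = 0
    · have h4 := im_nonneg hq
      have h5 := congrArg Complex.im h3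
      simp at h5
      have he0 : e = 0 := by linarith
      subst he0
      simp
    · have h6 : q 1 ^ 2 * (yF (e * I) q - yF 0 q) = -(e * I) * yF 0 q * yF (e * I) q := by
        unfold yF
        rw [add_zero]
        field_simp
        ring
      rw [h6, norm_mul, norm_mul, norm_neg, norm_mul, Complex.norm_real, norm_I, mul_one,
        Real.norm_of_nonneg he]
      calc e * ‖yF 0 q‖ * ‖yF (e * I) q‖ ≤ e * 1 * 1 := by
            gcongr
            · exact norm_yF_zero_le hq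
            · exact norm_yF_le hq he
        _ = e := by ring

lemma im_I_add_zero {q : Fin 3 → ℂ} (hq : q ∈ M) : 1 ≤ (I + hF 0 q).im := by
  rw [add_im, I_im, im_hF hq]
  have := normSq_nonneg (q 1 * (yF 0 q + I))
  have := normSq_nonneg (q 0 ^ 2 * (yF 0 q - 2 * I))
  have := normSq_nonneg (q 0)
  linarith

lemma half_le {q : Fin 3 → ℂ} (hq : q ∈ M) {e : ℝ} (he : 0 ≤ e) (he2 : e ≤ 1 / 2) :
    1 / 2 ≤ ‖I + hF (e * I) q‖ := by
  have h1 := im_I_add_zero hq
  have h2 := hF_sub hq he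
  have h3 : |(hF (e * I) q - hF 0 q).im| ≤ e := (abs_im_le_norm _).trans h2
  have h4 : (I + hF (e * I) q).im = (I + hF 0 q).im + (hF (e * I) q - hF 0 q).im := by
    simp
  have h5 := (abs_le.1 h3).1
  calc (1:ℝ) / 2 ≤ (I + hF (e * I) q).im := by rw [h4]; linarith
    _ ≤ |(I + hF (e * I) q).im| := le_abs_self _
    _ ≤ _ := abs_im_le_norm _

lemma ne_zero_I_add {q : Fin 3 → ℂ} (hq : q ∈ M) {e : ℝ} (he : 0 ≤ e) (he2 : e ≤ 1 / 2) :
    I + hF (e * I) q ≠ 0 := by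
  intro h
  have := half_le hq he he2
  rw [h, norm_zero] at this
  linarith

lemma ne_zero_I_add_zero {q : Fin 3 → ℂ} (hq : q ∈ M) : I + hF 0 q ≠ 0 := by
  simpa using ne_zero_I_add hq (le_refl 0) (by norm_num : (0:ℝ) ≤ 1/2)

/-- f maps M to the sphere -/
lemma F_sphere {q : Fin 3 → ℂ} (hq : q ∈ M) : ∑ j, ‖F 0 q j‖ ^ 2 = 1 := by
  have hne := ne_zero_I_add_zero hq
  have hne' : normSq (I + hF 0 q) ≠ 0 := fun h => hne (normSq_eq_zero.1 h)
  have h1 := im_hF hq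
  simp only [Fin.sum_univ_four, F, ← normSq_eq_norm_sq, normSq_div, ← add_div]
  rw [div_eq_one_iff_eq hne']
  have e0 : gF 0 q 0 = (I - hF 0 q) / 2 := rfl
  have e1 : gF 0 q 1 = q 1 * (yF 0 q + I) := rfl
  have e2 : gF 0 q 2 = q 0 ^ 2 * (yF 0 q - 2 * I) := rfl
  have e3 : gF 0 q 3 = q 0 := rfl
  rw [e0, e1, e2, e3, mul_div_cancel₀ _ two_ne_zero]
  simp only [normSq_mul 2]
  have h2 : normSq 2 = 4 := by simp; norm_num
  rw [h2]
  have h3 : normSq (I + hF 0 q) - normSq (I - hF 0 q) = 4 * (hF 0 q).im := by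
    simp only [normSq_apply, add_re, add_im, sub_re, sub_im, I_re, I_im]; ring
  linarith

/-- bound -/
noncomputable def B (q : Fin 3 → ℂ) : ℝ :=
  4 * (1 + 2 * ‖q 1‖ ^ 2 + 2 * ‖q 2‖ + 2 * ‖q 1‖ + 3 * ‖q 0‖ ^ 2 + ‖q 0‖)

lemma continuous_B : Continuous B := by unfold B; fun_prop

lemma norm_hF_le {q : Fin 3 → ℂ} (hq : q ∈ M) {e : ℝ} (he : 0 ≤ e) :
    ‖hF (e * I) q‖ ≤ 2 * ‖q 1‖ ^ 2 + 2 * ‖q 2‖ + ‖q 1‖ := by
  unfold hF
  have h1 := norm_yF_le hq he
  calc ‖q 1 ^ 2 * yF (e * I) q - I * q 1 ^ 2 + 2 * q 2 + q 1‖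
      ≤ ‖q 1 ^ 2 * yF (e * I) q - I * q 1 ^ 2 + 2 * q 2‖ + ‖q 1‖ := norm_add_le _ _
    _ ≤ ‖q 1 ^ 2 * yF (e * I) q - I * q 1 ^ 2‖ + ‖2 * q 2‖ + ‖q 1‖ := by
        gcongr; exact norm_add_le _ _
    _ ≤ ‖q 1 ^ 2 * yF (e * I) q‖ + ‖I * q 1 ^ 2‖ + ‖2 * q 2‖ + ‖q 1‖ := by
        gcongr; exact norm_sub_le _ _
    _ = ‖q 1‖ ^ 2 * ‖yF (e * I) q‖ + ‖q 1‖ ^ 2 + 2 * ‖q 2‖ + ‖q 1‖ := by
        simp [norm_pow]
    _ ≤ ‖q 1‖ ^ 2 * 1 + ‖q 1‖ ^ 2 + 2 * ‖q 2‖ + ‖q 1‖ := by gcongr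
    _ = _ := by ring

lemma norm_gF_le {q : Fin 3 → ℂ} (hq : q ∈ M) {e : ℝ} (he : 0 ≤ e) (j : Fin 4) :
    4 * ‖gF (e * I) q j‖ ≤ B q := by
  have h1 := norm_yF_le hq he
  have h2 := norm_hF_le hq he
  have n0 := norm_nonneg (q 0)
  have n1 := norm_nonneg (q 1)
  have n2 := norm_nonneg (q 2)
  have n0' : 0 ≤ ‖q 0‖ ^ 2 := by positivity
  have n1' : 0 ≤ ‖q 1‖ ^ 2 := by positivity
  unfold B
  fin_cases j
  · change 4 * ‖(I - hF (e * I) q) / 2‖ ≤ _
    rw [norm_div, Complex.norm_ofNat]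
    have := norm_sub_le I (hF (e * I) q)
    rw [norm_I] at this
    linarith
  · change 4 * ‖q 1 * (yF (e * I) q + I)‖ ≤ _
    rw [norm_mul]
    have h3 := norm_add_le (yF (e * I) q) I
    rw [norm_I] at h3
    have h4 : ‖q 1‖ * ‖yF (e * I) q + I‖ ≤ ‖q 1‖ * 2 := by gcongr; linarith
    linarith
  · change 4 * ‖q 0 ^ 2 * (yF (e * I) q - 2 * I)‖ ≤ _
    rw [norm_mul, norm_pow]
    have h3 := norm_sub_le (yF (e * I) q) (2 * I)
    rw [norm_mul, Complex.norm_ofNat, norm_I] at h3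
    have h4 : ‖q 0‖ ^ 2 * ‖yF (e * I) q - 2 * I‖ ≤ ‖q 0‖ ^ 2 * 3 := by gcongr; linarith
    linarith
  · change 4 * ‖q 0‖ ≤ _
    linarith

lemma norm_F_le {q : Fin 3 → ℂ} (hq : q ∈ M) {e : ℝ} (he : 0 ≤ e) (he2 : e ≤ 1 / 2)
    (j : Fin 4) : ‖F (e * I) q j‖ ≤ B q := by
  refine le_trans ?_ (norm_gF_le hq he j)
  unfold F
  rw [norm_div, norm_mul, Complex.norm_ofNat]
  have h1 := half_le hq he he2
  have hpos : 0 < ‖I + hF (e * I) q‖ := by linarith
  rw [div_le_iff₀ hpos]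
  have := norm_nonneg (gF (e * I) q j)
  nlinarith

/-- the open set on which F ε is holomorphic -/
def WF (ε : ℂ) : Set (Fin 3 → ℂ) := {q | q 2 + ε ≠ 0 ∧ (q 2 + ε) * (I + hF ε q) ≠ 0}

/-- numerator polynomial of (v+ε)(I+h) -/
noncomputable def DF (ε : ℂ) (q : Fin 3 → ℂ) : ℂ :=
  q 1 ^ 4 + (q 2 + ε) * (I - I * q 1 ^ 2 + 2 * q 2 + q 1)

lemma DF_eq {ε : ℂ} {q : Fin 3 → ℂ} (h : q 2 + ε ≠ 0) : (q 2 + ε) * (I + hF ε q) = DF ε q := by
  unfold hF yF DF
  field_simp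
  ring

noncomputable def PF (ε : ℂ) (q : Fin 3 → ℂ) : Fin 4 → ℂ :=
  ![(q 2 + ε) * (I + I * q 1 ^ 2 - 2 * q 2 - q 1) - q 1 ^ 4,
    2 * (q 1 ^ 3 + q 1 * (q 2 + ε) * I),
    2 * (q 0 ^ 2 * (q 1 ^ 2 - 2 * I * (q 2 + ε))),
    2 * (q 0 * (q 2 + ε))]

lemma PF_eq {ε : ℂ} {q : Fin 3 → ℂ} (h : q 2 + ε ≠ 0) (j : Fin 4) :
    (q 2 + ε) * (2 * gF ε q j) = PF ε q j := by
  fin_cases j
  · change (q 2 + ε) * (2 * ((I - hF ε q) / 2)) = _
    simp only [PF, hF, yF]
    simp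
    field_simp
    ring
  · change (q 2 + ε) * (2 * (q 1 * (yF ε q + I))) = _
    simp only [PF, yF]
    simp
    field_simp
  · change (q 2 + ε) * (2 * (q 0 ^ 2 * (yF ε q - 2 * I))) = _
    simp only [PF, yF]
    simp
    field_simp
  · change (q 2 + ε) * (2 * q 0) = _
    simp only [PF]
    simp
    ring

lemma F_eq {ε : ℂ} {q : Fin 3 → ℂ} (h : q 2 + ε ≠ 0) (j : Fin 4) :
    F ε q j = PF ε q j / DF ε q := by
  unfold F
  rw [← DF_eq h, ← PF_eq h j, mul_div_mul_left _ _ h]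

lemma analytic_coord (i : Fin 3) (q : Fin 3 → ℂ) : AnalyticAt ℂ (fun q : Fin 3 → ℂ => q i) q :=
  (ContinuousLinearMap.proj (R := ℂ) (φ := fun _ : Fin 3 => ℂ) i).analyticAt q

lemma analytic_DF (ε : ℂ) (q : Fin 3 → ℂ) : AnalyticAt ℂ (DF ε) q := by
  have h1 := analytic_coord 1 q
  have h2 := analytic_coord 2 q
  have hc : ∀ a : ℂ, AnalyticAt ℂ (fun _ : Fin 3 → ℂ => a) q := fun a => analyticAt_const
  exact (h1.pow 4).add ((h2.add (hc ε)).mul
    ((((hc I).sub ((hc I).mul (h1.pow 2))).add ((hc 2).mul h2)).add h1))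

lemma analytic_PF (ε : ℂ) (q : Fin 3 → ℂ) (j : Fin 4) : AnalyticAt ℂ (fun q => PF ε q j) q := by
  have h0 := analytic_coord 0 q
  have h1 := analytic_coord 1 q
  have h2 := analytic_coord 2 q
  have hc : ∀ a : ℂ, AnalyticAt ℂ (fun _ : Fin 3 → ℂ => a) q := fun a => analyticAt_const
  fin_cases j
  · exact ((h2.add (hc ε)).mul
      ((((hc I).add ((hc I).mul (h1.pow 2))).sub ((hc 2).mul h2)).sub h1)).sub (h1.pow 4)
  · exact (hc 2).mul ((h1.pow 3).add ((h1.mul (h2.add (hc ε))).mul (hc I)))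
  · exact (hc 2).mul ((h0.pow 2).mul ((h1.pow 2).sub (((hc 2).mul (hc I)).mul (h2.add (hc ε)))))
  · exact (hc 2).mul (h0.mul (h2.add (hc ε)))

/-! ### the CR equations -/

/-- the parameters -/
noncomputable def ek (k : ℕ) : ℝ := 1 / (k + 2)
lemma ek_pos (k : ℕ) : 0 < ek k := by unfold ek; positivity
lemma ek_le (k : ℕ) : ek k ≤ 1 / 2 := by
  unfold ek
  apply one_div_le_one_div_of_le (by norm_num)
  have : (0:ℝ) ≤ k := Nat.cast_nonneg k
  linarith
lemma tendsto_ek : Filter.Tendsto ek Filter.atTop (𝓝 0) := by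
  have h := (tendsto_one_div_add_atTop_nhds_zero_nat (𝕜 := ℝ)).comp (Filter.tendsto_add_atTop_nat 1)
  refine h.congr ?_
  intro k
  simp only [Function.comp, ek]
  push_cast
  ring_nf

def Wk (k : ℕ) : Set (Fin 3 → ℂ) := {q | DF (ek k * I) q ≠ 0}

lemma isOpen_Wk (k : ℕ) : IsOpen (Wk k) := by
  have : Continuous (DF (ek k * I)) := by
    rw [continuous_iff_continuousAt]
    intro q
    exact (analytic_DF _ q).continuousAt
  exact isOpen_ne_fun this continuous_const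

lemma v_add_ne {q : Fin 3 → ℂ} (hq : q ∈ M) {e : ℝ} (he : 0 < e) : q 2 + e * I ≠ 0 := by
  intro h
  have h4 := im_nonneg hq
  have h5 := congrArg Complex.im h
  simp at h5
  linarith

lemma DF_ne {q : Fin 3 → ℂ} (hq : q ∈ M) {e : ℝ} (he : 0 < e) (he2 : e ≤ 1 / 2) :
    DF (e * I) q ≠ 0 := by
  rw [← DF_eq (v_add_ne hq he)]
  exact mul_ne_zero (v_add_ne hq he) (ne_zero_I_add hq he.le he2)

lemma DF_zero_ne {q : Fin 3 → ℂ} (hq : q ∈ M) (h2 : q 2 ≠ 0) : DF 0 q ≠ 0 := by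
  have h2' : q 2 + 0 ≠ 0 := by simpa using h2
  rw [← DF_eq h2']
  exact mul_ne_zero h2' (ne_zero_I_add_zero hq)

lemma tendsto_F {q : Fin 3 → ℂ} (hq : q ∈ M) (j : Fin 4) :
    Filter.Tendsto (fun k => PF (ek k * I) q j / DF (ek k * I) q) Filter.atTop (𝓝 (F 0 q j)) := by
  have he : Filter.Tendsto (fun k => (ek k : ℂ) * I) Filter.atTop (𝓝 0) := by
    have h1 : Filter.Tendsto (fun k => (ek k : ℂ)) Filter.atTop (𝓝 ((0:ℝ):ℂ)) :=
      (Complex.continuous_ofReal.tendsto 0).comp tendsto_ek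
    simpa using h1.mul_const I
  have heq : ∀ k, PF (ek k * I) q j / DF (ek k * I) q = F (ek k * I) q j := fun k =>
    (F_eq (v_add_ne hq (ek_pos k)) j).symm
  by_cases h2 : q 2 = 0
  · have hq0 := eq_zero_of_v hq h2
    have h3 : ∀ ε : ℂ, F ε q j = F 0 q j := by
      intro ε
      rw [hq0]
      have hy : yF ε 0 = yF 0 0 := by simp [yF]
      simp only [F, gF, hF, hy]
    simp only [heq, h3]
    exact tendsto_const_nhds
  · have h2' : q 2 + 0 ≠ 0 := by simpa using h2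
    rw [F_eq h2' j]
    have hP : Continuous (fun ε => PF ε q j) := by
      fin_cases j
      · change Continuous (fun ε : ℂ => (q 2 + ε) * (I + I * q 1 ^ 2 - 2 * q 2 - q 1) - q 1 ^ 4)
        fun_prop
      · change Continuous (fun ε : ℂ => 2 * (q 1 ^ 3 + q 1 * (q 2 + ε) * I))
        fun_prop
      · change Continuous (fun ε : ℂ => 2 * (q 0 ^ 2 * (q 1 ^ 2 - 2 * I * (q 2 + ε))))
        fun_prop
      · change Continuous (fun ε : ℂ => 2 * (q 0 * (q 2 + ε)))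
        fun_prop
    have hD : Continuous (fun ε => DF ε q) := by
      unfold DF; fun_prop
    exact ((hP.tendsto 0).comp he).div ((hD.tendsto 0).comp he) (DF_zero_ne hq h2)

lemma continuousAt_F {q : Fin 3 → ℂ} (hq : q ∈ M) (h2 : q 2 ≠ 0) (j : Fin 4) :
    ContinuousAt (fun q => F 0 q j) q := by
  have h1 : ContinuousAt (fun q => PF 0 q j / DF 0 q) q :=
    (analytic_PF 0 q j).continuousAt.div (analytic_DF 0 q).continuousAt (DF_zero_ne hq h2)
  refine h1.congr ?_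
  have h3 : ∀ᶠ x : Fin 3 → ℂ in 𝓝 q, x 2 ≠ 0 :=
    (continuous_apply 2).continuousAt.eventually_ne h2
  filter_upwards [h3] with x hx
  exact (F_eq (by simpa using hx) j).symm

lemma cwa_mul_y {c : (Fin 3 → ℂ) → ℂ} (hc : Continuous c) (hc0 : c 0 = 0) :
    ContinuousWithinAt (fun q => c q * yF 0 q) M 0 := by
  have h0 : c 0 * yF 0 0 = 0 := by rw [hc0, zero_mul]
  unfold ContinuousWithinAt
  simp only [h0]
  have h1 : Filter.Tendsto (fun q => ‖c q‖) (𝓝[M] 0) (𝓝 0) := by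
    have := (hc.norm.tendsto 0).mono_left (nhdsWithin_le_nhds (s := M))
    simpa [hc0] using this
  refine squeeze_zero_norm' ?_ h1
  filter_upwards [self_mem_nhdsWithin] with q hq
  rw [norm_mul]
  calc ‖c q‖ * ‖yF 0 q‖ ≤ ‖c q‖ * 1 := by gcongr; exact norm_yF_zero_le hq
    _ = ‖c q‖ := mul_one _

lemma cwa_hF : ContinuousWithinAt (hF 0) M 0 := by
  have h1 : ContinuousWithinAt (fun q : Fin 3 → ℂ => q 1 ^ 2 * yF 0 q) M 0 :=
    cwa_mul_y (by fun_prop) (by simp)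
  have h2 : Continuous (fun q : Fin 3 → ℂ => - (I * q 1 ^ 2) + 2 * q 2 + q 1) := by fun_prop
  refine (h1.add h2.continuousWithinAt).congr ?_ ?_
  · intro q _; simp only [hF, Pi.add_apply]; ring
  · simp only [hF, Pi.add_apply]; ring

lemma cwa_F (j : Fin 4) : ContinuousWithinAt (fun q => F 0 q j) M 0 := by
  have h0M : (0 : Fin 3 → ℂ) ∈ M := by simp [M]
  have hden : ContinuousWithinAt (fun q => I + hF 0 q) M 0 := continuousWithinAt_const.add cwa_hF
  refine ContinuousWithinAt.div ?_ hden (ne_zero_I_add_zero h0M)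
  refine continuousWithinAt_const.mul ?_
  fin_cases j
  · exact (continuousWithinAt_const.sub cwa_hF).div_const 2
  · have h1 : ContinuousWithinAt (fun q : Fin 3 → ℂ => q 1 * yF 0 q) M 0 :=
      cwa_mul_y (by fun_prop) (by simp)
    have h2 : Continuous (fun q : Fin 3 → ℂ => q 1 * I) := by fun_prop
    refine (h1.add h2.continuousWithinAt).congr ?_ ?_
    · intro q _; simp [gF]; ring
    · simp [gF]
  · have h1 : ContinuousWithinAt (fun q : Fin 3 → ℂ => q 0 ^ 2 * yF 0 q) M 0 :=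
      cwa_mul_y (by fun_prop) (by simp)
    have h2 : Continuous (fun q : Fin 3 → ℂ => - (q 0 ^ 2 * (2 * I))) := by fun_prop
    refine (h1.add h2.continuousWithinAt).congr ?_ ?_
    · intro q _; simp [gF]; ring
    · simp [gF]
  · exact (continuous_apply 0).continuousWithinAt

lemma continuousOn_F (j : Fin 4) : ContinuousOn (fun q => F 0 q j) M := by
  intro q hq
  by_cases h2 : q 2 = 0
  · rw [eq_zero_of_v hq h2]; exact cwa_F j
  · exact (continuousAt_F hq h2 j).continuousWithinAt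


/-- points on the edge used several times -/
noncomputable def pt (τ : ℂ) (s : ℝ) : Fin 3 → ℂ := ![0, s, τ * (s : ℂ) ^ 2]

lemma pt_mem {τ : ℂ} (hτ : τ.im = 1) (s : ℝ) : pt τ s ∈ M := by
  constructor
  · simp [pt]
  · have h1 : pt τ s 2 = τ * ((s ^ 2 : ℝ) : ℂ) := by simp [pt]
    have h2 : pt τ s 1 = (s : ℂ) := rfl
    have h3 : pt τ s 0 = 0 := rfl
    rw [h1, h2, h3, Complex.im_mul_ofReal, hτ]
    simp [normSq_apply]; ring

lemma continuous_pt (τ : ℂ) : Continuous (pt τ) := by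
  rw [continuous_pi_iff]
  intro i
  fin_cases i
  · exact continuous_const
  · exact Complex.continuous_ofReal
  · change Continuous (fun s : ℝ => τ * (s : ℂ) ^ 2)
    fun_prop

lemma pt_zero (τ : ℂ) : pt τ 0 = 0 := by
  ext i; fin_cases i <;> simp [pt]

lemma extendsMeromorphically_F : ExtendsMeromorphically M 0 (F 0) := by
  refine ⟨univ, isOpen_univ, mem_univ _, fun j q => PF 0 q j, fun _ => DF 0, ?_, ?_⟩
  · intro j
    refine ⟨fun q _ => analytic_PF 0 q j, fun q _ => analytic_DF 0 q, ?_⟩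
    intro V _ hV ⟨q, hq⟩
    by_contra hcon
    push Not at hcon
    -- second difference in the last variable
    have hc : Continuous (fun t : ℝ => q + (t : ℂ) • (Pi.single 2 1 : Fin 3 → ℂ)) := by fun_prop
    have h0 : ∀ᶠ t : ℝ in 𝓝 (0:ℝ), q + (t : ℂ) • (Pi.single 2 1 : Fin 3 → ℂ) ∈ V := by
      apply hc.continuousAt
      simpa using hV.mem_nhds hq
    obtain ⟨δ, hδ, hball⟩ := Metric.eventually_nhds_iff.1 h0
    have hmem : ∀ t : ℝ, |t| < δ → DF 0 (q + (t : ℂ) • (Pi.single 2 1 : Fin 3 → ℂ)) = 0 := by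
      intro t ht
      apply hcon
      apply hball
      simpa [Real.dist_eq] using ht
    have ha := hmem 0 (by simpa using hδ)
    have hb := hmem (δ / 2) (by rw [abs_of_pos (by linarith)]; linarith)
    have hd := hmem (-(δ / 2)) (by rw [abs_neg, abs_of_pos (by linarith)]; linarith)
    simp [DF] at ha hb hd
    have h4 : (δ : ℂ) ^ 2 = 0 := by linear_combination hb + hd - 2 * ha
    have h5 : (δ : ℂ) = 0 := pow_eq_zero_iff two_ne_zero |>.1 h4
    have h6 : δ = 0 := by exact_mod_cast h5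
    linarith
  · intro q hq W _ hW hqW G hG hGP
    have key : ∀ x ∈ W, x ∈ M → x 2 ≠ 0 → G x = F 0 x := by
      intro x hx hxM hx2
      ext j
      rw [F_eq (by simpa using hx2) j, eq_div_iff (DF_zero_ne hxM hx2)]
      exact hGP x hx j
    by_cases h2 : q 2 = 0
    · have hq0 := eq_zero_of_v hq.1 h2
      subst hq0
      -- approach 0 along pt I
      ext j
      have h1 : Filter.Tendsto (fun s : ℝ => pt I s) (𝓝[≠] 0) (𝓝[M] 0) := by
        refine tendsto_nhdsWithin_iff.2 ⟨?_, Filter.Eventually.of_forall fun s => pt_mem (by simp) s⟩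
        have := ((continuous_pt I).tendsto 0).mono_left (nhdsWithin_le_nhds (s := {0}ᶜ))
        rwa [pt_zero] at this
      have h3 : Filter.Tendsto (fun s : ℝ => F 0 (pt I s) j) (𝓝[≠] 0) (𝓝 (F 0 0 j)) :=
        (cwa_F j).tendsto.comp h1
      have h4 : Filter.Tendsto (fun s : ℝ => G (pt I s) j) (𝓝[≠] 0) (𝓝 (G 0 j)) := by
        have h5 : ContinuousAt (fun x => G x j) 0 :=
          (continuous_apply j).continuousAt.comp (hG 0 hqW).continuousAt
        exact h5.tendsto.comp (h1.mono_right nhdsWithin_le_nhds)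
      refine tendsto_nhds_unique (h4.congr' ?_) h3
      have h6 : ∀ᶠ s in 𝓝[≠] (0:ℝ), pt I s ∈ W :=
        (h1.mono_right nhdsWithin_le_nhds) (hW.mem_nhds hqW)
      filter_upwards [h6, self_mem_nhdsWithin] with s hs hs0
      rw [key _ hs (pt_mem (by simp) s)]
      change I * (s : ℂ) ^ 2 ≠ 0
      exact mul_ne_zero I_ne_zero (pow_ne_zero 2 (by exact_mod_cast hs0))
    · exact key q hqW hq.1 h2

/-! ### no holomorphic extension -/

lemma yF_pt {τ : ℂ} (hτ : τ ≠ 0) {s : ℝ} (hs : s ≠ 0) : yF 0 (pt τ s) = 1 / τ := by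
  have hs' : (s : ℂ) ≠ 0 := by exact_mod_cast hs
  change (s : ℂ) ^ 2 / (τ * (s : ℂ) ^ 2 + 0) = 1 / τ
  field_simp
  simp

lemma hF_pt {τ : ℂ} (hτ : τ ≠ 0) (s : ℝ) :
    hF 0 (pt τ s) = (s : ℂ) ^ 2 * (1 / τ - I + 2 * τ) + s := by
  by_cases hs : s = 0
  · subst hs; rw [pt_zero]; simp [hF]
  · have : hF 0 (pt τ s) = (s : ℂ) ^ 2 * yF 0 (pt τ s) - I * (s : ℂ) ^ 2
        + 2 * (τ * (s : ℂ) ^ 2) + s := rfl
    rw [this, yF_pt hτ hs]; ring

lemma F0_eq {q : Fin 3 → ℂ} (hq : q ∈ M) : F 0 q 0 = -1 + 2 * I / (I + hF 0 q) := by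
  have h := ne_zero_I_add_zero hq
  have : F 0 q 0 = 2 * ((I - hF 0 q) / 2) / (I + hF 0 q) := rfl
  rw [this]
  field_simp
  ring

lemma tendsto_diff {τ : ℂ} (hτ : τ.im = 1) :
    Filter.Tendsto (fun s : ℝ => (F 0 (pt τ s) 0 - F 0 (pt I s) 0) / (s : ℂ) ^ 2) (𝓝[≠] 0)
      (𝓝 (2 * I * ((1 / τ - I + 2 * τ) - (1 / I - I + 2 * I)))) := by
  have hτ0 : τ ≠ 0 := by rintro rfl; simp at hτ
  have hI : (I : ℂ).im = 1 := I_im
  have key : ∀ s : ℝ, s ≠ 0 → (F 0 (pt τ s) 0 - F 0 (pt I s) 0) / (s : ℂ) ^ 2 =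
      -(2 * I) * ((1 / τ - I + 2 * τ) - (1 / I - I + 2 * I)) /
        ((I + hF 0 (pt τ s)) * (I + hF 0 (pt I s))) := by
    intro s hs
    have hs' : (s : ℂ) ≠ 0 := by exact_mod_cast hs
    have h1 := ne_zero_I_add_zero (pt_mem hτ s)
    have h2 := ne_zero_I_add_zero (pt_mem hI s)
    rw [F0_eq (pt_mem hτ s), F0_eq (pt_mem hI s)]
    have h3 : hF 0 (pt τ s) - hF 0 (pt I s) =
        (s : ℂ) ^ 2 * ((1 / τ - I + 2 * τ) - (1 / I - I + 2 * I)) := by
      rw [hF_pt hτ0, hF_pt I_ne_zero]; ring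
    generalize ((1 / τ - I + 2 * τ) - (1 / I - I + 2 * I)) = κ at *
    generalize hF 0 (pt τ s) = a at *
    generalize hF 0 (pt I s) = b at *
    rw [div_eq_div_iff (pow_ne_zero 2 hs') (mul_ne_zero h1 h2)]
    have h4 : (-1 + 2 * I / (I + a) - (-1 + 2 * I / (I + b))) * ((I + a) * (I + b))
        = -(2 * I) * (a - b) := by
      field_simp
      ring
    rw [h4, h3]; ring
  have hc : ∀ τ : ℂ, τ ≠ 0 → Filter.Tendsto (fun s : ℝ => I + hF 0 (pt τ s)) (𝓝[≠] 0) (𝓝 I) := by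
    intro τ hτ0
    have h1 : Continuous (fun s : ℝ => I + ((s : ℂ) ^ 2 * (1 / τ - I + 2 * τ) + s)) := by fun_prop
    have h2 := (h1.tendsto 0).mono_left (nhdsWithin_le_nhds (s := {0}ᶜ))
    simp only [hF_pt hτ0]
    simpa using h2
  have h3 : Filter.Tendsto (fun s : ℝ => -(2 * I) * ((1 / τ - I + 2 * τ) - (1 / I - I + 2 * I)) /
        ((I + hF 0 (pt τ s)) * (I + hF 0 (pt I s)))) (𝓝[≠] 0)
      (𝓝 (-(2 * I) * ((1 / τ - I + 2 * τ) - (1 / I - I + 2 * I)) / (I * I))) :=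
    tendsto_const_nhds.div ((hc τ hτ0).mul (hc I I_ne_zero)) (mul_ne_zero I_ne_zero I_ne_zero)
  have h4 : -(2 * I) * ((1 / τ - I + 2 * τ) - (1 / I - I + 2 * I)) / (I * I) =
      2 * I * ((1 / τ - I + 2 * τ) - (1 / I - I + 2 * I)) := by
    rw [I_mul_I]; ring
  rw [h4] at h3
  refine h3.congr' ?_
  filter_upwards [self_mem_nhdsWithin] with s hs
  exact (key s hs).symm

lemma not_extendsHolomorphically_F : ¬ ExtendsHolomorphically M 0 (F 0) := by
  rintro ⟨U, hU, h0U, G, hG, hGF⟩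
  have hG0 : AnalyticAt ℂ (fun q => G q 0) 0 :=
    (ContinuousLinearMap.proj (R := ℂ) (φ := fun _ : Fin 4 => ℂ) 0).analyticAt _ |>.comp (hG 0 h0U)
  obtain ⟨L, hL⟩ : ∃ L, HasStrictFDerivAt (fun q => G q 0) L (0 : Fin 3 → ℂ) :=
    ⟨_, hG0.hasStrictFDerivAt⟩
  have hlim : ∀ τ : ℂ, τ.im = 1 →
      Filter.Tendsto (fun s : ℝ => (F 0 (pt τ s) 0 - F 0 (pt I s) 0) / (s : ℂ) ^ 2) (𝓝[≠] 0)
      (𝓝 (L ![0, 0, τ - I])) := by
    intro τ hτ
    have hpt : ∀ τ : ℂ, Filter.Tendsto (pt τ) (𝓝[≠] 0) (𝓝 0) := fun τ => by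
      have := ((continuous_pt τ).tendsto 0).mono_left (nhdsWithin_le_nhds (s := {0}ᶜ))
      rwa [pt_zero] at this
    have hUe : ∀ τ : ℂ, ∀ᶠ s in 𝓝[≠] (0:ℝ), pt τ s ∈ U := fun τ => hpt τ (hU.mem_nhds h0U)
    have h1 : (fun s : ℝ => G (pt τ s) 0 - G (pt I s) 0 - L (pt τ s - pt I s)) =o[𝓝[≠] 0]
        (fun s : ℝ => pt τ s - pt I s) := by
      have := (hL.isLittleO).comp_tendsto ((hpt τ).prodMk_nhds (hpt I))
      exact this
    have h2 : ∀ s : ℝ, pt τ s - pt I s = ((s : ℂ) ^ 2) • ![0, 0, τ - I] := by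
      intro s
      ext i
      fin_cases i
      · simp [pt]
      · simp [pt]
      · simp [pt]; ring
    have h3 : (fun s : ℝ => G (pt τ s) 0 - G (pt I s) 0 - (s : ℂ) ^ 2 * L ![0, 0, τ - I])
        =o[𝓝[≠] 0] (fun s : ℝ => (s : ℂ) ^ 2) := by
      have h4 : (fun s : ℝ => pt τ s - pt I s) =O[𝓝[≠] 0] (fun s : ℝ => (s : ℂ) ^ 2) := by
        refine Asymptotics.IsBigO.of_bound ‖(![0, 0, τ - I] : Fin 3 → ℂ)‖ ?_
        refine Filter.Eventually.of_forall fun s => ?_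
        rw [h2, norm_smul, mul_comm]
      have h5 := h1.trans_isBigO h4
      refine h5.congr_left ?_
      intro s
      rw [h2, map_smul, smul_eq_mul]
    have h6 : Filter.Tendsto (fun s : ℝ => (G (pt τ s) 0 - G (pt I s) 0 -
        (s : ℂ) ^ 2 * L ![0, 0, τ - I]) / (s : ℂ) ^ 2) (𝓝[≠] 0) (𝓝 0) := h3.tendsto_div_nhds_zero
    have h7 := h6.add_const (L ![0, 0, τ - I])
    rw [zero_add] at h7
    refine h7.congr' ?_
    filter_upwards [self_mem_nhdsWithin, hUe τ, hUe I] with s hs h8 h9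
    have hs' : (s : ℂ) ≠ 0 := by exact_mod_cast hs
    rw [hGF _ ⟨pt_mem hτ s, h8⟩, hGF _ ⟨pt_mem I_im s, h9⟩]
    field_simp
    ring
  have e1 := tendsto_nhds_unique (hlim (1 + I) (by simp)) (tendsto_diff (τ := 1 + I) (by simp))
  have e2 := tendsto_nhds_unique (hlim (-1 + I) (by simp)) (tendsto_diff (τ := -1 + I) (by simp))
  have h10 : (![0, 0, (1 + I) - I] : Fin 3 → ℂ) = - ![0, 0, (-1 + I) - I] := by
    ext i; fin_cases i <;> simp
  rw [h10, map_neg, e2] at e1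
  have hI1 : (1 : ℂ) / (1 + I) = (1 - I) / 2 := by
    rw [div_eq_div_iff (by intro h; have := congrArg Complex.re h; simp at this) two_ne_zero]
    linear_combination I_sq
  have hI2 : (1 : ℂ) / (-1 + I) = (-1 - I) / 2 := by
    rw [div_eq_div_iff (by intro h; have := congrArg Complex.re h; simp at this) two_ne_zero]
    linear_combination I_sq
  have hI3 : (1 : ℂ) / I = -I := by
    rw [div_eq_iff I_ne_zero]; linear_combination I_sq
  rw [hI1, hI2, hI3] at e1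
  have h11 : (-2 : ℂ) = 0 := by linear_combination (-1) * e1 - 2 * I_sq
  norm_num at h11

/-! ### The main theorem -/

lemma isCRMap_F : IsCRMap 2 M (F 0) := by
  intro j
  refine ⟨continuousOn_F j, ?_⟩
  intro m _ O ψ hψ X hX hXψ χ hχ hχc hχO
  obtain ⟨hO, hψs, _, _, hψM⟩ := hψ
  refine cr_of_limit (M := M) (f := fun q => F 0 q j) hO hψs hψM (W := Wk) isOpen_Wk ?_
    (G := fun k q => PF (ek k * I) q j / DF (ek k * I) q) ?_ continuous_B ?_ ?_ hX hXψ hχ hχc hχO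
  · intro k q hq
    exact DF_ne hq (ek_pos k) (ek_le k)
  · intro k q hq
    exact (analytic_PF _ q j).div (analytic_DF _ q) hq
  · intro k q hq
    rw [← F_eq (v_add_ne hq (ek_pos k)) j]
    exact norm_F_le hq (ek_pos k).le (ek_le k) j
  · intro q hq
    exact tendsto_F hq j

/-- **Negative answer to Q1.** There are a generic real analytic submanifold `M ⊂ ℂ³` of real
codimension `2`, minimal at `0 ∈ M`, and a continuous CR map `f : M → ∂𝔹₄` which extends
meromorphically near `0` but does not extend holomorphically to any neighbourhood of `0`. -/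
theorem result :
    ∃ (M : Set (Fin 3 → ℂ)) (f : (Fin 3 → ℂ) → (Fin 4 → ℂ)),
      IsRealSubmanifold ω 2 M ∧ IsGeneric M ∧ (0 : Fin 3 → ℂ) ∈ M ∧ IsMinimalAt 2 M 0 ∧
      IsCRMap 2 M f ∧ MapsTo f M (unitSphere 4) ∧
      ExtendsMeromorphically M 0 f ∧ ¬ ExtendsHolomorphically M 0 f :=
  ⟨M, F 0, isRealSubmanifold_M, isGeneric_M, by simp [M], isMinimal_M, isCRMap_F,
    fun _ hq => F_sphere hq, extendsMeromorphically_F, not_extendsHolomorphically_F⟩

end Pool.Agent.Results.MP_c4ba3a_an.CodimTwoCounterexample
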